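import Pool.Agent.Q269.GJ.StE
import Pool.Agent.Y164.HG.Cla

/-!
# Project GJ (helper269): jobs ADM and IMP (helper257)
-/

set_option autoImplicit false
set_option linter.all false

open scoped Classical
open Finset Polynomial

namespace Pool.Agent.Q257.GJ

open Pool.Agent.Q269.GR (Dn pr Pfam)
open Pool.Agent.Q269.GJ
open Pool.Agent.Y164.PS (L L_comm Sf mem_Sf Fam L_of_not_coprime)
open Pool.Agent.Y164.HG (Geo Tau QQ EW AT BT Triv Dat V FF Del Imp nb nb_iff om cl)

section equiv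

variable {W : Type} [AddCommGroup W] [Module Pool.Agent.Y164.HG.F2 W] [Pool.Agent.Y164.HG.Symp W]
variable {ι ι' τ : Type} [Fintype ι] [Fintype ι'] [Fintype τ]

/-- transport of vectors -/
def tr (e : ι ≃ ι') (w : V W ι' τ) : V W ι τ := (fun i => w.1 (e i), w.2)

theorem dg_tr (D : Dat W τ) (d : ι' → Pool.Agent.Y164.HG.F2) (e : ι ≃ ι') (w : V W ι' τ) :
    Pool.Agent.Y164.HG.dg D (fun i => d (e i)) (tr e w) = Pool.Agent.Y164.HG.dg D d w := by
  unfold Pool.Agent.Y164.HG.dg tr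
  rw [e.sum_comp (fun i => d i • w.1 i)]

theorem FF_tr (D : Dat W τ) (A : ι' → ι' → Pool.Agent.Y164.HG.F2) (B : ι' → τ → Pool.Agent.Y164.HG.F2)
    (d : ι' → Pool.Agent.Y164.HG.F2) (e : ι ≃ ι') (w w' : V W ι' τ) :
    FF D (fun i j => A (e i) (e j)) (fun i s => B (e i) s) (fun i => d (e i)) (tr e w) (tr e w') =
      FF D A B d w w' := by
  unfold FF tr
  dsimp only
  rw [e.sum_comp (fun i => ∑ s, B i s * (om (w.1 i) (D.t s) * om (w'.1 i) (D.t s) + w.2 s * om (D.t s) (w'.1 i) +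
    w'.2 s * om (w.1 i) (D.t s))), e.sum_comp (fun i => d i * om (D.ks (w.1 i)) (w'.1 i))]
  have h1 : ∑ i, ∑ j, A (e i) (e j) * (om (w.1 (e j)) (w'.1 (e i)) + om (w.1 (e i)) (w'.1 (e i))) =
      ∑ i, ∑ j, A i j * (om (w.1 j) (w'.1 i) + om (w.1 i) (w'.1 i)) := by
    rw [← e.sum_comp (fun i => ∑ j, A i j * (om (w.1 j) (w'.1 i) + om (w.1 i) (w'.1 i)))]
    refine sum_congr rfl fun i _ => ?_
    exact e.sum_comp (fun j => A (e i) j * (om (w.1 j) (w'.1 (e i)) + om (w.1 (e i)) (w'.1 (e i))))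
  rw [h1]

theorem tr_surj (e : ι ≃ ι') (v : V W ι τ) : ∃ w : V W ι' τ, tr e w = v := by
  refine ⟨(fun i => v.1 (e.symm i), v.2), ?_⟩
  unfold tr
  apply Prod.ext
  · funext i
    show v.1 (e.symm (e i)) = v.1 i
    rw [e.symm_apply_apply]
  · rfl

theorem tr_eq_zero (e : ι ≃ ι') (w : V W ι' τ) : tr e w = 0 ↔ w = 0 := by
  constructor
  · intro h
    apply Prod.ext
    · funext i
      have h1 := congrFun (congrArg Prod.fst h) (e.symm i)
      have h2 : w.1 (e (e.symm i)) = 0 := h1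
      rw [e.apply_symm_apply] at h2
      exact h2
    · have h3 : (tr e w).2 = (0 : V W ι τ).2 := congrArg (fun z : V W ι τ => z.2) h
      exact h3
  · rintro rfl
    rfl

/-- invariance of `Triv` under bijections of the index type -/
theorem triv_tr (D : Dat W τ) (A : ι' → ι' → Pool.Agent.Y164.HG.F2) (B : ι' → τ → Pool.Agent.Y164.HG.F2)
    (d : ι' → Pool.Agent.Y164.HG.F2) (e : ι ≃ ι') :
    Triv D (fun i j => A (e i) (e j)) (fun i s => B (e i) s) (fun i => d (e i)) ↔ Triv D A B d := by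
  unfold Triv
  constructor
  · intro h w h1 h2
    rw [← tr_eq_zero e]
    apply h
    · rw [dg_tr]; exact h1
    · intro v' hv'
      obtain ⟨w', rfl⟩ := tr_surj e v'
      rw [dg_tr] at hv'
      rw [FF_tr]
      exact h2 w' hv'
  · intro h v h1 h2
    obtain ⟨w, rfl⟩ := tr_surj e v
    rw [tr_eq_zero]
    apply h
    · rw [dg_tr] at h1; exact h1
    · intro w' hw'
      have := h2 (tr e w') (by rw [dg_tr]; exact hw')
      rw [FF_tr] at this
      exact this

end equiv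

section

variable {k : Type} [Field k] [Fintype k] {n : ℕ} {a : Fin n → k[X]} {N : ℕ} (H : Geo a N)

theorem L_self {P : k[X]} (hP : Irreducible P) : L P P = 0 :=
  L_of_not_coprime hP.ne_zero fun h => hP.not_isUnit (h.isUnit_of_dvd' dvd_rfl dvd_rfl)

theorem pr_eq {Δ : k[X]} {ι : Type} [Fintype ι] {P : ι → k[X]} (hP : Pfam Δ P) (x : k[X]) :
    x ∈ pr (∏ i, P i) ↔ ∃ i, P i = x := by
  have h0 : (∏ i, P i) ≠ 0 := prod_ne_zero_iff.2 fun i _ => (hP.mon i).ne_zero
  unfold pr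
  rw [Multiset.mem_toFinset]
  constructor
  · intro h
    have h1 := UniqueFactorizationMonoid.irreducible_of_normalized_factor x h
    have h2 := UniqueFactorizationMonoid.dvd_of_mem_normalizedFactors h
    have h3 := UniqueFactorizationMonoid.normalize_normalized_factor x h
    obtain ⟨i, -, hd⟩ := (h1.prime.dvd_finset_prod_iff _).1 h2
    refine ⟨i, ?_⟩
    have h4 : Associated x (P i) := h1.associated_of_dvd (hP.irr i) hd
    have h5 : x.Monic := by
      rw [← h3]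
      exact monic_normalize h1.ne_zero
    exact (eq_of_monic_of_associated h5 (hP.mon i) h4).symm
  · rintro ⟨i, rfl⟩
    have h1 : P i ∣ ∏ i, P i := dvd_prod_of_mem _ (mem_univ i)
    obtain ⟨q, hq, hq2⟩ := UniqueFactorizationMonoid.exists_mem_normalizedFactors_of_dvd h0 (hP.irr i) h1
    have h3 := UniqueFactorizationMonoid.normalize_normalized_factor q hq
    have h6 := UniqueFactorizationMonoid.irreducible_of_normalized_factor q hq
    have h5 : q.Monic := by
      rw [← h3]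
      exact monic_normalize h6.ne_zero
    rw [eq_of_monic_of_associated (hP.mon i) h5 hq2]
    exact hq

/-- the indexing of the prime divisors -/
noncomputable def ix {Δ : k[X]} {ι : Type} [Fintype ι] {P : ι → k[X]} (hP : Pfam Δ P) :
    ι ≃ {x : k[X] // x ∈ pr (∏ i, P i)} :=
  Equiv.ofBijective (fun i => ⟨P i, (pr_eq hP _).2 ⟨i, rfl⟩⟩) (by
    constructor
    · intro i j hij
      exact hP.inj (congrArg Subtype.val hij)
    · rintro ⟨x, hx⟩
      obtain ⟨i, hi⟩ := (pr_eq hP x).1 hx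
      exact ⟨i, Subtype.ext hi⟩)

theorem ix_val {Δ : k[X]} {ι : Type} [Fintype ι] {P : ι → k[X]} (hP : Pfam Δ P) (i : ι) :
    (ix hP i).1 = P i := rfl

/-- `TR` in terms of a family of primes -/
theorem TR_iff [hn : Fact (Odd n)] {Δ : k[X]} {ι : Type} [Fintype ι] {P : ι → k[X]} (hP : Pfam Δ P) :
    TR H (∏ i, P i) ↔ ∃ σ : Tau a → Pool.Agent.Q269.GR.F2,
      (∀ s, σ s + ∑ i, BT (QQ a) P i s + H.comb.gg s = 0) ∧
      Triv (H.dat σ) (AT P) (BT (QQ a) P) (fun i => ((P i).natDegree : Pool.Agent.Q269.GR.F2)) := by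
  unfold TR
  refine exists_congr fun σ => and_congr (forall_congr' fun s => ?_) ?_
  · have h1 : ∑ i : {x : k[X] // x ∈ pr (∏ i, P i)}, BT (QQ a) (fun x : {x : k[X] // x ∈ pr (∏ i, P i)} => x.1) i s =
        ∑ i, BT (QQ a) P i s := by
      rw [← (ix hP).sum_comp]
      rfl
    rw [h1]
  · have h2 := triv_tr (H.dat σ) (AT fun x : {x : k[X] // x ∈ pr (∏ i, P i)} => x.1)
      (BT (QQ a) fun x : {x : k[X] // x ∈ pr (∏ i, P i)} => x.1)
      (fun x : {x : k[X] // x ∈ pr (∏ i, P i)} => (x.1.natDegree : Pool.Agent.Q269.GR.F2)) (ix hP)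
    exact h2.symm

theorem TR_congr {m : ℕ} {P P' : Fin m → k[X]} (hP : Pfam (Del a) P) (hP' : Pfam (Del a) P')
    (h1 : ∀ i, (P i).natDegree = (P' i).natDegree)
    (h2 : ∀ i j, i ≠ j → L (P i) (P j) = L (P' i) (P' j))
    (h3 : ∀ Q : k[X], Q.Monic → Irreducible Q → Q ∣ Del a → ∀ i, L Q (P i) = L Q (P' i)) :
    TR H (∏ i, P i) ↔ TR H (∏ i, P' i) := by
  haveI : Fact (Odd n) := ⟨H.hn⟩
  rw [TR_iff H hP, TR_iff H hP']
  have e1 : AT P = AT P' := by
    funext i j
    by_cases hij : i = j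
    · subst hij
      show L (P i) (P i) = L (P' i) (P' i)
      rw [L_self (hP.irr i), L_self (hP'.irr i)]
    · exact h2 i j hij
  have e2 : BT (QQ a) P = BT (QQ a) P' := by
    funext i s
    obtain ⟨q1, q2, q3⟩ := H.mem.1 s.2
    show L (P i) (QQ a s) = L (P' i) (QQ a s)
    rw [L_comm H.hm (P i), L_comm H.hm (P' i)]
    exact h3 _ q1 q2 q3 i
  have e3 : (fun i => ((P i).natDegree : Pool.Agent.Q269.GR.F2)) =
      fun i => ((P' i).natDegree : Pool.Agent.Q269.GR.F2) := by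
    funext i
    rw [h1 i]
  rw [e1, e2, e3]

end

theorem t_ADM : S_ADM := by
  intro k _ _ n a N H m P P' hP hP' h1 h2 h3
  exact TR_congr H hP hP' h1 h2 h3

theorem t_IMP : S_IMP := by
  intro k _ _ n a N H hn
  constructor
  · intro σ ι _ T hT hcl hpar htr
    have hP : Pfam (Del a) T := by
      refine ⟨fun i => hT.mon (Sum.inl i), fun i => hT.irr (Sum.inl i), fun i j hij => ?_, fun i hd => ?_⟩
      · have := hT.inj (a₁ := Sum.inl i) (a₂ := Sum.inl j) hij
        exact Sum.inl_injective this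
      · have hm : T i ∈ Pool.Agent.Y164.HG.bpF a := H.mem.2 ⟨hT.mon (Sum.inl i), hT.irr (Sum.inl i), hd⟩
        have h1 : (Sum.inl i : ι ⊕ Tau a) = Sum.inr ⟨T i, hm⟩ := hT.inj rfl
        cases h1
    rw [TR_iff H hP]
    exact ⟨σ, hcl, htr⟩
  · intro m
    ext D
    unfold Dn
    rw [mem_filter, mem_filter, mem_Sf, Pool.Agent.H341R2.Sharp.mem_Mon]
    constructor
    · rintro ⟨⟨h1, h2⟩, h3, h4⟩
      refine ⟨⟨h1, h2, h3⟩, (nb_iff H h1).2 fun i j hij => ?_⟩
      exact h4.of_isCoprime_of_dvd_right (H.dvd_del hij)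
    · rintro ⟨⟨h1, h2, h3⟩, h4⟩
      refine ⟨⟨h1, h2⟩, h3, ?_⟩
      have h5 := (nb_iff H h1).1 h4
      unfold Del
      apply IsCoprime.prod_right
      intro x hx
      exact h5 _ _ (ne_of_lt (mem_filter.1 hx).2)

end Pool.Agent.Q257.GJ
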