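import Pool.Agent.Q241.GR.Cell
import Pool.Agent.Q269.GJ.StE

/-!
# Project GJ (helper269), job EB1: the orders up to `t ^ 8` (helper257, after `Pool/Agent/Q241/GR/EB1.lean`)
-/

set_option autoImplicit false
set_option linter.all false

open scoped Classical
open Finset Polynomial

namespace Pool.Agent.Q257.GJ

open Pool.Agent.Q269.GR (F2 cf ev Un Eb dl IsRt gg Bt AA MM ts HU HG Herm hv own Irn Dn pr Fr xi Pfam dg
  Ce IsCe sT erT FxR owR A0R tn XA XB)
open Pool.Agent.Q269.GJ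
open Pool.Agent.Y164.PS (L sg)
open Pool.Agent.Y164.HG (Geo Del)
open Pool.Agent.Q241.GR (mem_XA XA_closed XA_sub XA_inj num1 num3)

theorem card_filter_le_sum {α β : Type*} (s : Finset α) (R : Finset β) (f : α → Prop) (g : β → α → Prop)
    [DecidablePred fun x => f x ∧ ∃ r ∈ R, g r x] [∀ r, DecidablePred fun x => f x ∧ g r x] :
    ((s.filter fun x => f x ∧ ∃ r ∈ R, g r x).card : ℝ) ≤
      ∑ r ∈ R, ((s.filter fun x => f x ∧ g r x).card : ℝ) := by
  have h1 : (s.filter fun x => f x ∧ ∃ r ∈ R, g r x) ⊆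
      R.biUnion fun r => s.filter fun x => f x ∧ g r x := by
    intro x hx
    rw [mem_filter] at hx
    obtain ⟨hx1, hx2, r, hr, hx3⟩ := hx
    rw [mem_biUnion]
    exact ⟨r, hr, mem_filter.2 ⟨hx1, hx2, hx3⟩⟩
  exact_mod_cast (card_le_card h1).trans card_biUnion_le

theorem num2' {n t σ l : ℕ} (hn : 1 ≤ n) (ht : 64 * n ≤ t) (hσ : 100 * σ ≤ t) (hl : t ^ 2 ≤ 8 * l) :
    (2 : ℝ) ^ (n ^ 2 + 2 + CG n σ) * (5 / 6) ^ l ≤ 2 ^ (17 * n ^ 2 + 66) / 2 ^ t := by
  have h1 : 8 * (n * t) ≤ l := by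
    have : 64 * n * t ≤ t * t := Nat.mul_le_mul_right t ht
    nlinarith
  have h2 : ((5 : ℝ) / 6) ^ l ≤ (1 / 4) ^ (n * t) := by
    calc ((5 : ℝ) / 6) ^ l ≤ (5 / 6) ^ (8 * (n * t)) :=
          pow_le_pow_of_le_one (by norm_num) (by norm_num) h1
      _ = ((5 / 6) ^ 8) ^ (n * t) := by rw [pow_mul]
      _ ≤ _ := pow_le_pow_left₀ (by norm_num) (by norm_num) _
  have h4 : 4 * n * σ ≤ n * t := by
    calc 4 * n * σ = n * (4 * σ) := by ring
      _ ≤ n * t := Nat.mul_le_mul_left _ (by omega)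
  have h3 : (2 : ℝ) ^ (n ^ 2 + 2 + CG n σ) ≤ 2 ^ (17 * n ^ 2 + 66) * 2 ^ (n * t) := by
    rw [← pow_add]
    refine pow_le_pow_right₀ (by norm_num) ?_
    unfold CG
    omega
  have h5 : (2 : ℝ) ^ (n * t) * (1 / 4) ^ (n * t) = 1 / 2 ^ (n * t) := by
    rw [← mul_pow, ← one_div_pow]
    norm_num
  have h6 : (1 : ℝ) / 2 ^ (n * t) ≤ 1 / 2 ^ t := by
    have : t ≤ n * t := Nat.le_mul_of_pos_left t hn
    have h7 : (2 : ℝ) ^ t ≤ 2 ^ (n * t) := pow_le_pow_right₀ (by norm_num) this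
    gcongr
  calc (2 : ℝ) ^ (n ^ 2 + 2 + CG n σ) * (5 / 6) ^ l ≤
        (2 ^ (17 * n ^ 2 + 66) * 2 ^ (n * t)) * (1 / 4) ^ (n * t) := by gcongr
    _ = 2 ^ (17 * n ^ 2 + 66) * (1 / 2 ^ (n * t)) := by rw [mul_assoc, h5]
    _ ≤ 2 ^ (17 * n ^ 2 + 66) * (1 / 2 ^ t) := by gcongr
    _ = _ := by ring

/-- the uniform error -/
noncomputable def bn (n t : ℕ) : ℝ := 2 ^ (17 * n ^ 2 + 66) / 2 ^ t + 2 * ((t : ℝ) ^ 24 / 2 ^ t)

theorem bn_nonneg (n t : ℕ) : 0 ≤ bn n t := by unfold bn; positivity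

theorem bn_tendsto (n : ℕ) : Filter.Tendsto (fun t : ℕ => (t : ℝ) ^ 16 * bn n t) Filter.atTop (nhds 0) := by
  have h1 := tendsto_pow_const_div_const_pow_of_one_lt 16 (r := (2 : ℝ)) (by norm_num)
  have h2 := tendsto_pow_const_div_const_pow_of_one_lt 40 (r := (2 : ℝ)) (by norm_num)
  have h3 := (h1.const_mul (2 ^ (17 * n ^ 2 + 66))).add (h2.const_mul 2)
  rw [mul_zero, mul_zero, add_zero] at h3
  refine h3.congr fun t => ?_
  unfold bn
  ring

section

variable {k : Type} [Field k] [Fintype k]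

theorem cell_data' (h4 : Pool.Agent.Q269.GR.S_ERA) (hq : 5 ≤ Fintype.card k) {n₀ : ℕ} (hn₀ : 1 ≤ n₀)
    {a : Fin n₀ → k[X]} {Δ : k[X]} {d₀ : ℕ}
    (hgen : ∀ d ≥ d₀, Eqd a d)
    {t : ℕ} (ht : 64 * n₀ ≤ t) (hd₀ : d₀ ≤ t) (hΔ : Δ.natDegree + n₀ ^ 2 + 3 ≤ t)
    {m : ℕ} (P0 : Fin m → k[X]) (mv : Finset (Fin m)) (hmem : ∀ i, i ∈ mv ↔ t ^ 40 < dg P0 i)
    (hC : IsCe Δ P0 mv) (hX2 : m ≤ t ^ 12)
    (hX3 : 100 * ((univ : Finset (Fin m)).filter fun i => (P0 i).natDegree ≤ t ^ 40).card ≤ t)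
    {r : ℕ} (ho : Odd r) (h1 : 1 < r) (hr : r ≤ t ^ 8)
    (hX5 : t ^ 2 ≤ 8 * ((univ : Finset (Fin m)).filter fun i =>
          t ^ 40 < (P0 i).natDegree ∧ r ∣ (P0 i).natDegree).card) (u : ℕ) :
    Hyn a P0 mv r ∧ nn n₀ P0 mv r + 2 * erT r P0 mv (2 ^ eT n₀ Δ m {(r, u)}) ≤ bn n₀ t := by
  have hfix : 100 * ((univ : Finset (Fin m)).filter fun i => i ∉ mv).card ≤ t := by
    have e : ((univ : Finset (Fin m)).filter fun i => i ∉ mv) =
        (univ : Finset (Fin m)).filter fun i => (P0 i).natDegree ≤ t ^ 40 := by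
      ext i
      rw [mem_filter, mem_filter, hmem, not_lt]
      rfl
    rw [e]
    exact hX3
  have hfr : sfx P0 mv r ≤ ((univ : Finset (Fin m)).filter fun i => i ∉ mv).card := by
    refine card_le_card fun i hi => ?_
    rw [mem_filter] at hi ⊢
    exact ⟨hi.1, hi.2.1⟩
  have hmr : t ^ 2 ≤ 8 * smv P0 mv r := by
    have e : (mv.filter fun i => r ∣ dg P0 i) =
        (univ : Finset (Fin m)).filter fun i => t ^ 40 < (P0 i).natDegree ∧ r ∣ (P0 i).natDegree := by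
      ext i
      rw [mem_filter, mem_filter, hmem]
      constructor
      · intro h
        exact ⟨mem_univ _, h⟩
      · intro h
        exact h.2
    unfold smv
    rw [e]
    exact hX5
  have htp : t ≤ t ^ 40 := Nat.le_self_pow (by norm_num) _
  have ht64 : 64 ≤ t := by omega
  have hz : ∀ i ∈ mv, t ^ 40 < dg P0 i := fun i hi => (hmem i).1 hi
  refine ⟨⟨?_, ?_, ?_⟩, ?_⟩
  · intro j hj
    exact hgen _ (by have := hz j hj; omega)
  · intro j hj
    have e1 : ∑ i ∈ (univ : Finset (Fin m)).filter (· ∉ mv), (dg P0 i : ℝ) ≤ (t : ℝ) * (t : ℝ) ^ 40 := by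
      calc ∑ i ∈ (univ : Finset (Fin m)).filter (· ∉ mv), (dg P0 i : ℝ) ≤
            ∑ i ∈ (univ : Finset (Fin m)).filter (· ∉ mv), (t : ℝ) ^ 40 := by
            refine sum_le_sum fun i hi => ?_
            rw [mem_filter, hmem, not_lt] at hi
            exact_mod_cast hi.2
        _ = (((univ : Finset (Fin m)).filter (· ∉ mv)).card : ℝ) * (t : ℝ) ^ 40 := by
            rw [sum_const, nsmul_eq_mul]
        _ ≤ _ := by
            have : (((univ : Finset (Fin m)).filter (· ∉ mv)).card : ℝ) ≤ t := by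
              have : ((univ : Finset (Fin m)).filter (· ∉ mv)).card ≤ t := by omega
              exact_mod_cast this
            gcongr
    have e2 : (2 : ℝ) ^ t ^ 40 ≤ Real.sqrt ((Fintype.card k : ℝ) ^ dg P0 j) := by
      rw [Real.le_sqrt (by positivity) (by positivity), ← pow_mul, mul_comm, pow_mul]
      calc ((2 : ℝ) ^ 2) ^ t ^ 40 ≤ (Fintype.card k : ℝ) ^ t ^ 40 := by
            have : (5 : ℝ) ≤ Fintype.card k := by exact_mod_cast hq
            gcongr
            linarith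
        _ ≤ (Fintype.card k : ℝ) ^ dg P0 j := by
            have : (1 : ℝ) ≤ Fintype.card k := by
              have : (5 : ℝ) ≤ Fintype.card k := by exact_mod_cast hq
              linarith
            exact pow_le_pow_right₀ this (hz j hj).le
    refine le_trans ?_ ((num1 (by omega) hr).trans e2)
    gcongr
  · have b1 : t ≤ t ^ 2 := Nat.le_self_pow (by norm_num) _
    omega
  · unfold bn
    refine add_le_add ?_ ?_
    · unfold nn
      exact num2' hn₀ ht (by omega) hmr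
    · refine mul_le_mul_of_nonneg_left ?_ (by norm_num)
      have e1 := h4 k hq Δ r m (t ^ 40) P0 mv (by omega) hC hz (2 ^ eT n₀ Δ m {(r, u)})
        (by positivity)
      refine e1.trans (num3 (dl := Δ.natDegree + n₀ ^ 2) (by omega) hX2 hr hΔ ?_)
      unfold eT
      rw [sum_singleton]
      ring

/-- one order and one exponent -/
theorem one_order (h1 : S_CLA) (h2 : Pool.Agent.Q269.GR.S_DEC) (h4 : Pool.Agent.Q269.GR.S_ERA)
    (h7 : Pool.Agent.Q269.GR.S_PRD)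
    {n₀ : ℕ} {a : Fin n₀ → k[X]} {N : ℕ} (H : Geo a N) (hq : 5 ≤ Fintype.card k) {d₀ : ℕ}
    (hgen : ∀ d ≥ d₀, Eqd a d)
    {n : ℕ} (ht : 64 * n₀ ≤ tn n) (hd₀ : d₀ ≤ tn n) (hΔ : (Del a).natDegree + n₀ ^ 2 + 3 ≤ tn n)
    {f : k[X] → Prop} (hf : AdmD (Del a) f) {r : ℕ} (ho : Odd r) (hr1 : 1 < r) (hr : r ≤ tn n ^ 8)
    {u : ℕ} (hu : Nat.Coprime u r) :
    (((XA (Del a) n).filter fun D => f D ∧ KD r (xi r ^ u) a D ≠ ⊥).card : ℝ) ≤
      dl r * (((XA (Del a) n).filter fun D => f D).card : ℝ) +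
        bn n₀ (tn n) * (XA (Del a) n).card := by
  have hn₀ : 1 ≤ n₀ := by have := H.hn3; omega
  have ht64 : 64 ≤ tn n := by omega
  have htp : tn n ≤ tn n ^ 40 := Nat.le_self_pow (by norm_num) _
  obtain ⟨μ, hμ⟩ : ∃ μ : ℕ → Prop, ∀ d, μ d ↔ tn n ^ 40 < d := ⟨_, fun d => Iff.rfl⟩
  have key := h2 k (Del a) H.del_ne μ n (XA (Del a) n)
    (fun d hd => by rw [hμ] at hd; omega) XA_sub
    (fun D hD P hP P' hP' h3 h4 => XA_inj D hD P hP P' hP' ((hμ _).1 h3) h4)
    (fun m P0 hC hX T hT => XA_closed h7 H.del_ne P0 _ hC hX T hT)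
    (fun D => if f D ∧ KD r (xi r ^ u) a D ≠ ⊥ then (1 : ℝ) else 0)
    (fun D => (if f D then dl r else 0) + bn n₀ (tn n))
    (by
      intro m P0 hC hX
      have hmem : ∀ i, i ∈ ((univ : Finset (Fin m)).filter fun i => μ (dg P0 i)) ↔
          tn n ^ 40 < dg P0 i := by
        intro i
        rw [mem_filter, hμ]
        exact ⟨fun h => h.2, fun h => ⟨mem_univ _, h⟩⟩
      generalize ((univ : Finset (Fin m)).filter fun i => μ (dg P0 i)) = mv at hC hmem ⊢
      obtain ⟨hX1, hX2, hX3, hX4, hX5⟩ := (mem_XA h7 H.del_ne hC.fam).1 hX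
      obtain ⟨hyn, hbd⟩ := cell_data' h4 hq hn₀ hgen ht hd₀ hΔ P0 mv hmem hC hX2 hX3 ho hr1 hr
        (hX5 r ho hr1 hr) u
      have hIsR : IsR {(r, u)} := by
        refine ⟨fun p hp => ?_, fun p hp p' hp' hne => ?_⟩
        · rw [mem_singleton] at hp
          subst hp
          exact ⟨ho, hr1, hu⟩
        · rw [mem_singleton] at hp hp'
          exact absurd (hp.trans hp'.symm) hne
      have c1 := h1 k H.hk H.hm hq (Del a) H.del_ne n₀ H.hn H.hn3 a r m P0 mv {(r, u)} hC ho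
        (fun p hp => by rw [mem_singleton.1 hp]) hIsR
        (fun p hp => by rw [mem_singleton.1 hp]; exact hyn) f hf
      rw [prod_singleton, sum_singleton] at c1
      have e0 : ((Fintype.piFinset (Ce P0 mv)).filter fun T => f (∏ i, T i) ∧
          ∀ p ∈ ({(r, u)} : Finset (ℕ × ℕ)), KD p.1 (xi p.1 ^ p.2) a (∏ i, T i) = ⊥) =
          (Fintype.piFinset (Ce P0 mv)).filter fun T => f (∏ i, T i) ∧
            KD r (xi r ^ u) a (∏ i, T i) = ⊥ := by
        refine filter_congr fun T _ => ?_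
        constructor
        · rintro ⟨b1, b2⟩
          exact ⟨b1, b2 (r, u) (mem_singleton_self _)⟩
        · rintro ⟨b1, b2⟩
          refine ⟨b1, fun p hp => ?_⟩
          rw [mem_singleton] at hp
          subst hp
          exact b2
      rw [e0] at c1
      have e1 : (((Fintype.piFinset (Ce P0 mv)).filter fun T => f (∏ i, T i)).card : ℝ) =
          ((Fintype.piFinset (Ce P0 mv)).filter fun T => f (∏ i, T i) ∧
            KD r (xi r ^ u) a (∏ i, T i) = ⊥).card +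
          ((Fintype.piFinset (Ce P0 mv)).filter fun T =>
            f (∏ i, T i) ∧ KD r (xi r ^ u) a (∏ i, T i) ≠ ⊥).card := by
        have e2 := card_filter_add_card_filter_not (s := (Fintype.piFinset (Ce P0 mv)).filter
          fun T => f (∏ i, T i)) (fun T => KD r (xi r ^ u) a (∏ i, T i) = ⊥)
        rw [filter_filter, filter_filter] at e2
        rw [← e2]
        push_cast
        rfl
      have e3 : ∑ T ∈ Fintype.piFinset (Ce P0 mv),
          (if f (∏ i, T i) ∧ KD r (xi r ^ u) a (∏ i, T i) ≠ ⊥ then (1 : ℝ) else 0) =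
          ((Fintype.piFinset (Ce P0 mv)).filter fun T =>
            f (∏ i, T i) ∧ KD r (xi r ^ u) a (∏ i, T i) ≠ ⊥).card := by
        rw [sum_boole]
      have e4 : ∑ T ∈ Fintype.piFinset (Ce P0 mv), ((if f (∏ i, T i) then dl r else 0) + bn n₀ (tn n)) =
          dl r * ((Fintype.piFinset (Ce P0 mv)).filter fun T => f (∏ i, T i)).card +
            bn n₀ (tn n) * (Fintype.piFinset (Ce P0 mv)).card := by
        rw [sum_add_distrib, ← sum_filter, sum_const, sum_const, nsmul_eq_mul, nsmul_eq_mul]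
        ring
      show ∑ T ∈ Fintype.piFinset (Ce P0 mv),
          (if f (∏ i, T i) ∧ KD r (xi r ^ u) a (∏ i, T i) ≠ ⊥ then (1 : ℝ) else 0) ≤
        ∑ T ∈ Fintype.piFinset (Ce P0 mv), ((if f (∏ i, T i) then dl r else 0) + bn n₀ (tn n))
      rw [e3, e4]
      have e5 := mul_le_mul_of_nonneg_right hbd (Nat.cast_nonneg (α := ℝ)
        (Fintype.piFinset (Ce P0 mv)).card)
      have c2 : (1 - dl r) * (((Fintype.piFinset (Ce P0 mv)).filter fun T => f (∏ i, T i)).card : ℝ) -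
          (nn n₀ P0 mv r + 2 * erT r P0 mv (2 ^ eT n₀ (Del a) m {(r, u)})) *
            (Fintype.piFinset (Ce P0 mv)).card ≤
          ((Fintype.piFinset (Ce P0 mv)).filter fun T => f (∏ i, T i) ∧
            KD r (xi r ^ u) a (∏ i, T i) = ⊥).card := c1
      rw [sub_mul, one_mul] at c2
      linarith)
  have e3 : ∑ D ∈ XA (Del a) n, (if f D ∧ KD r (xi r ^ u) a D ≠ ⊥ then (1 : ℝ) else 0) =
      ((XA (Del a) n).filter fun D => f D ∧ KD r (xi r ^ u) a D ≠ ⊥).card := by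
    rw [sum_boole]
  have e4 : ∑ D ∈ XA (Del a) n, ((if f D then dl r else 0) + bn n₀ (tn n)) =
      dl r * ((XA (Del a) n).filter fun D => f D).card +
        bn n₀ (tn n) * (XA (Del a) n).card := by
    rw [sum_add_distrib, ← sum_filter, sum_const, sum_const, nsmul_eq_mul, nsmul_eq_mul]
    ring
  rw [← e3, ← e4]
  exact key

end

/-- the powers of `xi r` with exponent prime to `r` depend only on the exponent modulo `r` -/
theorem xi_mod {r u : ℕ} (hr : 1 < r) (hu : Nat.Coprime u r) : xi r ^ u = xi r ^ (u % r) := by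
  have hu0 : u ≠ 0 := by
    rintro rfl
    rw [Nat.coprime_zero_left] at hu
    omega
  have hum : u % r ≠ 0 := by
    intro h
    have h1 : r ∣ u := Nat.dvd_of_mod_eq_zero h
    have h2 := Nat.Coprime.eq_one_of_dvd hu.symm h1
    omega
  by_cases h : ∃ x : Fr r, orderOf x = r
  · have h1 : orderOf (xi r) = r := by
      unfold xi
      rw [dif_pos h]
      exact h.choose_spec
    have h2 : xi r ^ r = 1 := by
      have := pow_orderOf_eq_one (xi r)
      rwa [h1] at this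
    exact pow_eq_pow_mod u h2
  · have h1 : xi r = 0 := by
      unfold xi
      rw [dif_neg h]
    rw [h1, zero_pow hu0, zero_pow hum]

theorem t_EB1 (h1 : S_CLA) (h2 : Pool.Agent.Q269.GR.S_DEC) (h3 : Pool.Agent.Q269.GR.S_TYA)
    (h4 : Pool.Agent.Q269.GR.S_ERA) (h5 : S_GEN) (h6 : Pool.Agent.Q269.GR.S_TNP)
    (h7 : Pool.Agent.Q269.GR.S_PRD) (h8 : Pool.Agent.Q269.GR.S_AVP) (h9 : S_SMD) : S_EB1 := by
  intro k _ _ n₀ a N H hq R₀ ε hε
  obtain ⟨d₀, hgen⟩ := h5 k n₀ a N H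
  have hn₀ : 1 ≤ n₀ := by have := H.hn3; omega
  have hε2 : 0 < ε / 2 := by positivity
  have hty := h3 k hq (Del a) H.del_ne (ε / 2) hε2
  have htn := h6.1
  have hb : ∀ᶠ t : ℕ in Filter.atTop, (t : ℝ) ^ 16 * bn n₀ t ≤ ε / 2 := by
    have := (bn_tendsto n₀).eventually (gt_mem_nhds hε2)
    exact this.mono fun t ht => ht.le
  filter_upwards [hty, htn.eventually hb, htn.eventually (Filter.eventually_ge_atTop (64 * n₀)),
    htn.eventually (Filter.eventually_ge_atTop d₀),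
    htn.eventually (Filter.eventually_ge_atTop ((Del a).natDegree + n₀ ^ 2 + 3)),
    Filter.eventually_ge_atTop 1] with n hn1 hn2 hn3 hn4 hn5 hn6
  intro f hf y
  obtain ⟨hav, -, -⟩ := h8 k hq (Del a) H.del_ne n hn6
  have hq0 : (0 : ℝ) ≤ (Fintype.card k : ℝ) ^ n := by positivity
  obtain ⟨h9a, h9b⟩ := h9 R₀
  -- the orders
  obtain ⟨R, hR⟩ : ∃ R : Finset ℕ, R = (range (tn n ^ 8 + 1)).filter fun r => OO R₀ r ∧ y < r :=
    ⟨_, rfl⟩
  have hRm : ∀ r, r ∈ R ↔ r ≤ tn n ^ 8 ∧ OO R₀ r ∧ y < r := by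
    intro r
    rw [hR, mem_filter, mem_range, Nat.lt_succ_iff]
  -- the pairs
  obtain ⟨S, hS⟩ : ∃ S : Finset (Σ _ : ℕ, ℕ), S = R.sigma fun r => (range r).filter fun u => Nat.Coprime u r :=
    ⟨_, rfl⟩
  have hSm : ∀ p : (Σ _ : ℕ, ℕ), p ∈ S ↔ p.1 ∈ R ∧ p.2 < p.1 ∧ Nat.Coprime p.2 p.1 := by
    intro p
    rw [hS, mem_sigma, mem_filter, mem_range]
  have hRc : (R.card : ℝ) ≤ (tn n : ℝ) ^ 8 := by
    have : R ⊆ Icc 1 (tn n ^ 8) := by
      intro r hr
      rw [hRm] at hr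
      rw [mem_Icc]
      have := hr.2.1.2.1
      omega
    have h := card_le_card this
    rw [Nat.card_Icc, Nat.add_sub_cancel] at h
    exact_mod_cast h
  have hSc : (S.card : ℝ) ≤ (tn n : ℝ) ^ 16 := by
    have e1 : S.card ≤ ∑ r ∈ R, r := by
      rw [hS, card_sigma]
      refine sum_le_sum fun r _ => ?_
      exact (card_filter_le _ _).trans (by rw [card_range])
    have e2 : ∑ r ∈ R, r ≤ R.card * tn n ^ 8 := by
      refine (sum_le_card_nsmul _ _ _ fun r hr => ((hRm r).1 hr).1).trans ?_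
      rw [smul_eq_mul]
    have e3 : (S.card : ℝ) ≤ (R.card : ℝ) * (tn n : ℝ) ^ 8 := by exact_mod_cast e1.trans e2
    calc (S.card : ℝ) ≤ (R.card : ℝ) * (tn n : ℝ) ^ 8 := e3
      _ ≤ (tn n : ℝ) ^ 8 * (tn n : ℝ) ^ 8 := by gcongr
      _ = _ := by ring
  -- splitting
  have hsub : ((Dn (Del a) n).filter fun D => f D ∧
      ∃ r : ℕ, OO R₀ r ∧ y < r ∧ r ≤ tn n ^ 8 ∧ ¬ GoodA r a D) ⊆
      (Dn (Del a) n \ XA (Del a) n) ∪ ((XA (Del a) n).filter fun D => f D ∧
        ∃ p ∈ S, KD p.1 (xi p.1 ^ p.2) a D ≠ ⊥) := by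
    intro D hD
    rw [mem_filter] at hD
    obtain ⟨hD1, hD2, r, a1, a2, a3, a4⟩ := hD
    rw [mem_union, mem_sdiff, mem_filter]
    by_cases hX : D ∈ XA (Del a) n
    · refine Or.inr ⟨hX, hD2, ?_⟩
      unfold GoodA at a4
      push Not at a4
      obtain ⟨u, hu1, hu2⟩ := a4
      have hr1 : 1 < r := a1.2.1
      refine ⟨⟨r, u % r⟩, ?_, ?_⟩
      · rw [hSm]
        refine ⟨(hRm r).2 ⟨a3, a1, a2⟩, Nat.mod_lt _ (by omega), ?_⟩
        have : Nat.gcd (u % r) r = Nat.gcd u r := (Nat.gcd_rec r u).symm.trans (Nat.gcd_comm r u)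
        show Nat.gcd (u % r) r = 1
        rw [this]
        exact hu1
      · show KD r (xi r ^ (u % r)) a D ≠ ⊥
        rw [← xi_mod hr1 hu1]
        exact hu2
    · exact Or.inl ⟨hD1, hX⟩
  have hc1 : ((((Dn (Del a) n).filter fun D => f D ∧
      ∃ r : ℕ, OO R₀ r ∧ y < r ∧ r ≤ tn n ^ 8 ∧ ¬ GoodA r a D).card : ℕ) : ℝ) ≤
      ((Dn (Del a) n \ XA (Del a) n).card : ℝ) +
        (((XA (Del a) n).filter fun D => f D ∧ ∃ p ∈ S, KD p.1 (xi p.1 ^ p.2) a D ≠ ⊥).card : ℝ) := by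
    exact_mod_cast (card_le_card hsub).trans (card_union_le _ _)
  have hc2 := card_filter_le_sum (XA (Del a) n) S f (fun p D => KD p.1 (xi p.1 ^ p.2) a D ≠ ⊥)
  have hXc : ((XA (Del a) n).card : ℝ) ≤ (Fintype.card k : ℝ) ^ n :=
    le_trans (by exact_mod_cast card_le_card XA_sub) hav
  have hXf : (((XA (Del a) n).filter fun D => f D).card : ℝ) ≤
      (((Dn (Del a) n).filter fun D => f D).card : ℝ) := by
    exact_mod_cast card_le_card (filter_subset_filter _ XA_sub)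
  have hc3 : ∀ p ∈ S, (((XA (Del a) n).filter fun D => f D ∧ KD p.1 (xi p.1 ^ p.2) a D ≠ ⊥).card : ℝ) ≤
      dl p.1 * (((Dn (Del a) n).filter fun D => f D).card : ℝ) +
        bn n₀ (tn n) * (Fintype.card k : ℝ) ^ n := by
    intro p hp
    obtain ⟨hp1, hp2, hp3⟩ := (hSm p).1 hp
    obtain ⟨a1, a2, a3⟩ := (hRm p.1).1 hp1
    refine (one_order h1 h2 h4 h7 H hq hgen hn3 hn4 hn5 hf a2.1 a2.2.1 a1 hp3).trans ?_
    exact add_le_add (mul_le_mul_of_nonneg_left hXf (h9a p.1 a2).1)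
      (mul_le_mul_of_nonneg_left hXc (bn_nonneg _ _))
  have hc4 : ∑ p ∈ S, (((XA (Del a) n).filter fun D => f D ∧ KD p.1 (xi p.1 ^ p.2) a D ≠ ⊥).card : ℝ) ≤
      (∑ p ∈ S, dl p.1) * (((Dn (Del a) n).filter fun D => f D).card : ℝ) +
        S.card * (bn n₀ (tn n) * (Fintype.card k : ℝ) ^ n) := by
    refine (sum_le_sum hc3).trans ?_
    rw [sum_add_distrib, sum_mul, sum_const, nsmul_eq_mul]
  have hSdl : ∑ p ∈ S, dl p.1 ≤ ∑ r ∈ R, (r : ℝ) * dl r := by
    rw [hS, sum_sigma]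
    refine sum_le_sum fun r hr => ?_
    have hd0 := (h9a r ((hRm r).1 hr).2.1).1
    show ∑ u ∈ (range r).filter (fun u => Nat.Coprime u r), dl r ≤ (r : ℝ) * dl r
    rw [sum_const, nsmul_eq_mul]
    refine mul_le_mul_of_nonneg_right ?_ hd0
    have : ((range r).filter fun u => Nat.Coprime u r).card ≤ r :=
      (card_filter_le _ _).trans (by rw [card_range])
    exact_mod_cast this
  have htl : ∑ r ∈ R, (r : ℝ) * dl r ≤ tl R₀ y := by
    unfold tl
    have hs : Summable (fun r : ℕ => if OO R₀ r ∧ y < r then (r : ℝ) * dl r else 0) := by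
      refine Summable.of_nonneg_of_le (fun r => ?_) (fun r => ?_) h9b
      · split_ifs with h
        · exact mul_nonneg (Nat.cast_nonneg _) (h9a r h.1).1
        · exact le_refl _
      · split_ifs with h h' h'
        · exact le_refl _
        · exact absurd h.1 h'
        · exact mul_nonneg (Nat.cast_nonneg _) (h9a r h').1
        · exact le_refl _
    have e1 : ∑ r ∈ R, (r : ℝ) * dl r = ∑ r ∈ R, (if OO R₀ r ∧ y < r then (r : ℝ) * dl r else 0) := by
      refine sum_congr rfl fun r hr => ?_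
      rw [if_pos ((hRm r).1 hr).2]
    rw [e1]
    refine hs.sum_le_tsum _ fun r _ => ?_
    split_ifs with h
    · exact mul_nonneg (Nat.cast_nonneg _) (h9a r h.1).1
    · exact le_refl _
  have hc5 : (S.card : ℝ) * (bn n₀ (tn n) * (Fintype.card k : ℝ) ^ n) ≤
      ε / 2 * (Fintype.card k : ℝ) ^ n := by
    rw [← mul_assoc]
    refine mul_le_mul_of_nonneg_right ?_ hq0
    exact (mul_le_mul_of_nonneg_right hSc (bn_nonneg _ _)).trans hn2
  have hc6 : (∑ p ∈ S, dl p.1) * (((Dn (Del a) n).filter fun D => f D).card : ℝ) ≤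
      tl R₀ y * (((Dn (Del a) n).filter fun D => f D).card : ℝ) :=
    mul_le_mul_of_nonneg_right (hSdl.trans htl) (Nat.cast_nonneg _)
  refine hc1.trans ?_
  linarith

end Pool.Agent.Q257.GJ
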